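import Pool.Agent.MP_3ee8cb_gt.DNC.Cov
import Pool.Agent.MP_3ee8cb_gt.CZI.Dom

/-! A continuous, homogeneous, locally injective map is a homeomorphism off the origin. -/

namespace Pool.Agent.MP_3ee8cb_gt.DFM

open Set Filter Topology Metric
open DNC (Slit slit_ne slit_neg slit_star slit_open)

variable {E : Type} [NormedAddCommGroup E] [NormedSpace ℝ E]

/-- A continuous, homogeneous, locally injective map. -/
structure Hc (Z : E → E) : Prop where
  cont : ContinuousOn Z {a | a ≠ 0}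
  hom : ∀ (r : ℝ) a, r ≠ 0 → a ≠ 0 → Z (r • a) = r • Z a
  loc : ∀ a, a ≠ 0 → ∃ U ∈ 𝓝 a, InjOn Z U

namespace Hc

variable {Z : E → E}

theorem ne (h : Hc Z) {a : E} (ha : a ≠ 0) : Z a ≠ 0 := fun e => by
  obtain ⟨U, hU, hi⟩ := h.loc a ha
  have c : Tendsto (fun r : ℝ => r • a) (𝓝[>] 1) (𝓝 a) := by
    have : Tendsto (fun r : ℝ => r • a) (𝓝 1) (𝓝 ((1 : ℝ) • a)) :=
      (continuous_id.smul continuous_const).tendsto 1
    rw [one_smul] at this
    exact this.mono_left nhdsWithin_le_nhds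
  obtain ⟨r, h1, h2⟩ := ((c.eventually hU).and self_mem_nhdsWithin).exists
  have r1 : (1 : ℝ) < r := h2
  have k := hi h1 (mem_of_mem_nhds hU) (by rw [h.hom r a (by linarith) ha, e, smul_zero])
  have : (r - 1) • a = 0 := by rw [sub_smul, k, one_smul, sub_self]
  exact ha ((smul_eq_zero.1 this).resolve_left (by linarith))

theorem fill (h : Hc Z) : ∃ Y : E → E, Hc Y ∧ Y 0 = 0 ∧ ∀ a, a ≠ 0 → Y a = Z a := by
  classical
  have e : ∀ a : E, a ≠ 0 → Function.update Z 0 0 a = Z a :=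
    fun a ha => Function.update_of_ne ha _ _
  refine ⟨Function.update Z 0 0, ⟨h.cont.congr fun a ha => e a ha, fun r a hr ha => ?_,
    fun a ha => ?_⟩, Function.update_self _ _ _, e⟩
  · rw [e _ (smul_ne_zero hr ha), e a ha, h.hom r a hr ha]
  · obtain ⟨U, hU, hi⟩ := h.loc a ha
    refine ⟨U ∩ {a | a ≠ 0}, inter_mem hU (isOpen_ne.mem_nhds ha), fun x hx y hy k => ?_⟩
    rw [e x hx.2, e y hy.2] at k
    exact hi hx.1 hy.1 k

variable [FiniteDimensional ℝ E]

theorem bd (h : Hc Z) (h0 : Z 0 = 0) : ∃ c C : ℝ, 0 < c ∧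
    ∀ a, c * ‖a‖ ≤ ‖Z a‖ ∧ ‖Z a‖ ≤ C * ‖a‖ := by
  have := FiniteDimensional.proper_real E
  have n0 : ∀ a ∈ sphere (0 : E) 1, a ≠ 0 := fun a ha e => by simp [e] at ha
  have c1 : ContinuousOn (fun a => ‖Z a‖) (sphere 0 1) := (h.cont.mono n0).norm
  obtain ⟨c, c0, hc⟩ := (isCompact_sphere (0 : E) 1).exists_forall_le' c1
    fun a ha => norm_pos_iff.2 (h.ne (n0 a ha))
  obtain ⟨C, hC⟩ := (isCompact_sphere (0 : E) 1).exists_bound_of_continuousOn (h.cont.mono n0)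
  refine ⟨c, C, c0, fun a => ?_⟩
  by_cases ha : a = 0
  · simp [ha, h0]
  have n := norm_pos_iff.2 ha
  have u : ‖a‖⁻¹ • a ∈ sphere (0 : E) 1 := mem_sphere_zero_iff_norm.2 (norm_smul_inv_norm ha)
  have e : ‖Z a‖ = ‖Z (‖a‖⁻¹ • a)‖ * ‖a‖ := by
    rw [h.hom _ a (inv_ne_zero n.ne') ha, norm_smul, norm_inv, norm_norm]
    field_simp
  rw [e]
  exact ⟨mul_le_mul_of_nonneg_right (hc _ u) n.le, mul_le_mul_of_nonneg_right (hC _ u) n.le⟩

theorem cont0 (h : Hc Z) (h0 : Z 0 = 0) : Continuous Z := by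
  refine continuous_iff_continuousAt.2 fun a => ?_
  by_cases ha : a = 0
  · subst ha
    obtain ⟨c, C, -, hb⟩ := h.bd h0
    rw [ContinuousAt, h0]
    refine squeeze_zero_norm (fun a => (hb a).2) ?_
    simpa using (tendsto_norm_zero (E := E)).const_mul C
  · exact h.cont.continuousAt (isOpen_ne.mem_nhds ha)

theorem proper (h : Hc Z) (h0 : Z 0 = 0) : IsProperMap Z := by
  have := FiniteDimensional.proper_real E
  obtain ⟨c, C, c0, hb⟩ := h.bd h0
  refine isProperMap_iff_tendsto_cocompact.2 ⟨h.cont0 h0, ?_⟩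
  rw [← Metric.cobounded_eq_cocompact, ← tendsto_norm_atTop_iff_cobounded]
  exact tendsto_atTop_mono (fun a => (hb a).1) (tendsto_norm_cobounded_atTop.const_mul_atTop c0)

theorem chart (h : Hc Z) (h0 : Z 0 = 0) {a : E} (ha : a ≠ 0) :
    ∃ φ : OpenPartialHomeomorph E E, a ∈ φ.source ∧ φ = Z := by
  obtain ⟨U, hU, hi⟩ := h.loc a ha
  obtain ⟨O, hO, oO, aO⟩ := _root_.mem_nhds_iff.1 hU
  have i := hi.mono hO
  have c := h.cont0 h0
  have : Nonempty E := ⟨0⟩
  refine ⟨OpenPartialHomeomorph.ofContinuousOpenRestrict (i.toPartialEquiv Z O) c.continuousOn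
    ?_ oO, aO, rfl⟩
  intro s hs
  have e : (O.domRestrict Z) '' s = Z '' (Subtype.val '' s) := by
    rw [← image_comp]
    rfl
  change IsOpen ((O.domRestrict Z) '' s)
  rw [e]
  exact CZI.isOpen_image rfl (oO.isOpenMap_subtype_val s hs) c.continuousOn
    (i.mono (by
      rintro _ ⟨x, -, rfl⟩
      exact x.2))

theorem cov (h : Hc Z) (h0 : Z 0 = 0) : IsCoveringMapOn Z {u | u ≠ 0} := by
  have n0 : ∀ a, Z a ≠ 0 → a ≠ 0 := fun a ha e => ha (e ▸ h0)
  intro u hu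
  have hl : ∀ e ∈ Z ⁻¹' {u}, ∃ φ : OpenPartialHomeomorph E E, e ∈ φ.source ∧ φ = Z :=
    fun e he => h.chart h0 (n0 e (by rw [show Z e = u from he]; exact hu))
  have hc : IsCompact (Z ⁻¹' {u}) := (h.proper h0).isCompact_preimage isCompact_singleton
  exact ((h.proper h0).isClosedMap.isEvenlyCovered_of_openPartialHomeomorph
    (hc.finite (.of_openPartialHomeomorph Z subset_rfl hl)) hl).to_isEvenlyCovered_preimage

theorem sec (h : Hc Z) (h0 : Z 0 = 0) {v a : E} (hv : v ≠ 0) (ha : Z a ∈ Slit v) :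
    ∃ F : C(Slit v, E), F ⟨_, ha⟩ = a ∧ ∀ x, Z (F x) = x := by
  have := (slit_star hv).contractibleSpace ⟨_, ha⟩
  have := (slit_open hv).locallyPathConnectedSpace
  obtain ⟨F, ⟨h1, h2⟩, -⟩ := (h.cov h0).existsUnique_continuousMap_lifts
    (⟨Subtype.val, continuous_subtype_val⟩ : C(Slit v, E)) (a₀ := ⟨_, ha⟩) (e₀ := a) rfl
    fun x => slit_ne x.2
  exact ⟨F, h1, fun x => congrFun h2 x⟩

theorem surj (h : Hc Z) (h0 : Z 0 = 0) : Function.Surjective Z := by
  intro u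
  by_cases hu : u = 0
  · exact ⟨0, by rw [h0, hu]⟩
  have hv : -u ≠ 0 := neg_ne_zero.2 hu
  have hus : u ∈ Slit (-u) := by simpa using slit_neg hv
  have hn : Z (-u) = -Z u := by simpa using h.hom (-1) u (by norm_num) hu
  have : ∃ a, Z a ∈ Slit (-u) := by
    by_contra hc
    push Not at hc
    have h1 := hc u
    have h2 := hc (-u)
    simp only [Slit, mem_ofPred_eq, not_forall, not_not] at h1 h2
    obtain ⟨c, hc, e⟩ := h1
    obtain ⟨c', hc', e'⟩ := h2
    have : (c + c') • (-u) = 0 := by rw [add_smul, ← e, ← e', hn, add_neg_cancel]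
    have hz : c = 0 := by
      rcases smul_eq_zero.1 this with h | h
      · linarith
      · exact absurd h hv
    exact h.ne hu (by rw [e, hz, zero_smul])
  obtain ⟨a, ha⟩ := this
  obtain ⟨F, -, hF⟩ := h.sec h0 hv ha
  exact ⟨F ⟨u, hus⟩, hF _⟩

/-- The image of a proper subspace is not everything. -/
theorem miss (h : Hc Z) (h0 : Z 0 = 0) {P : Submodule ℝ E} (hP : P ≠ ⊤) :
    ∃ v, ∀ x ∈ P, Z x ≠ v := by
  have := FiniteDimensional.proper_real E
  have : Nontrivial E := by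
    by_contra hn
    rw [not_nontrivial_iff_subsingleton] at hn
    exact hP (Subsingleton.elim _ _)
  have c := h.cont0 h0
  have k : ∀ x : E, ∃ N : Set E, x ≠ 0 → N ∈ 𝓝 x ∧ IsOpen (Z '' (N ∩ P))ᶜ ∧
      Dense (Z '' (N ∩ P))ᶜ := fun x => by
    by_cases hx : x = 0
    · exact ⟨∅, fun e => (e hx).elim⟩
    obtain ⟨U, hU, hi⟩ := h.loc x hx
    obtain ⟨N, hN, NU, cN⟩ := local_compact_nhds (interior_mem_nhds.2 hU)
    refine ⟨N, fun _ => ⟨hN, ((cN.inter_right P.closed_of_finiteDimensional).image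
      c).isClosed.isOpen_compl, ?_⟩⟩
    rw [← interior_eq_empty_iff_dense_compl, eq_empty_iff_forall_notMem]
    intro y hy
    obtain ⟨z, hz, rfl⟩ := interior_subset hy
    refine hP (P.eq_top_of_nonempty_interior' ⟨z, mem_interior_iff_mem_nhds.2 ?_⟩)
    filter_upwards [c.continuousAt.preimage_mem_nhds (mem_interior_iff_mem_nhds.1 hy),
      mem_interior_iff_mem_nhds.1 (NU hz.1)] with w h1 h2
    obtain ⟨w', h3, e⟩ := h1
    exact hi (interior_subset (NU h3.1)) h2 e ▸ h3.2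
  choose N hN using k
  obtain ⟨t, ts, tc, ht⟩ := TopologicalSpace.countable_cover_nhdsWithin (s := {x : E | x ≠ 0})
    (f := N) fun x hx => nhdsWithin_le_nhds (hN x hx).1
  have d := dense_biInter_of_isOpen (fun x hx => (hN x (ts hx)).2.1) tc
    fun x hx => (hN x (ts hx)).2.2
  obtain ⟨v, v1, v2⟩ := (d.inter_of_isOpen_right (dense_compl_singleton (0 : E))
    isOpen_compl_singleton).nonempty
  refine ⟨v, fun x hx e => ?_⟩
  have x0 : x ≠ 0 := fun e0 => v2 (by rw [← e, e0, h0]; rfl)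
  obtain ⟨y, hy, hxy⟩ := mem_iUnion₂.1 (ht x0)
  exact mem_iInter₂.1 v1 y hy ⟨x, ⟨hxy, hx⟩, e⟩

theorem inj (h : Hc Z) (h0 : Z 0 = 0) (hd : 3 ≤ Module.finrank ℝ E) : Function.Injective Z := by
  classical
  intro a a' e
  by_cases ha : a = 0
  · by_contra hn
    exact h.ne (a := a') (fun e0 => hn (ha.trans e0.symm)) (by rw [← e, ha, h0])
  have ha' : a' ≠ 0 := fun e0 => h.ne ha (by rw [e, e0, h0])
  have hp : ∀ t ∈ Icc (0 : ℝ) 1, a + t • (a' - a) ≠ 0 := by
    intro t ht e0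
    have e1 : (1 - t) • a = (-t) • a' := by
      rw [← sub_eq_zero, ← e0]; module
    have t0 : t ≠ 0 := fun k => ha (by simpa [k] using e1)
    have t1 : 1 - t ≠ 0 := fun k => by
      rw [k, zero_smul] at e1
      exact ha' ((smul_eq_zero.1 e1.symm).resolve_left (neg_ne_zero.2 t0))
    have e2 := congrArg Z e1
    rw [h.hom _ _ t1 ha, h.hom _ _ (neg_ne_zero.2 t0) ha', ← e, ← sub_eq_zero, ← sub_smul] at e2
    exact h.ne ha (by simpa using e2)
  have hP : Submodule.span ℝ ({a, a'} : Finset E) ≠ (⊤ : Submodule ℝ E) := fun k => by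
    have := finrank_span_finset_le_card (R := ℝ) ({a, a'} : Finset E)
    rw [Set.finrank, k, finrank_top] at this
    have h2 : ({a, a'} : Finset E).card ≤ 2 := Finset.card_le_two
    omega
  obtain ⟨v, hv⟩ := h.miss h0 hP
  have m1 : a ∈ Submodule.span ℝ (({a, a'} : Finset E) : Set E) := Submodule.subset_span (by simp)
  have m2 : a' ∈ Submodule.span ℝ (({a, a'} : Finset E) : Set E) := Submodule.subset_span (by simp)
  have hv0 : v ≠ 0 := fun e => hv 0 (Submodule.zero_mem _) (by rw [h0, e])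
  have hs : ∀ t ∈ Icc (0 : ℝ) 1, Z (a + t • (a' - a)) ∈ Slit v := by
    intro t ht c hc e
    have hc0 : c ≠ 0 := fun e0 => h.ne (hp t ht) (by rw [e, e0, zero_smul])
    refine hv (c⁻¹ • (a + t • (a' - a))) (Submodule.smul_mem _ _ (Submodule.add_mem _ m1
      (Submodule.smul_mem _ _ (Submodule.sub_mem _ m2 m1)))) ?_
    rw [h.hom _ _ (inv_ne_zero hc0) (hp t ht), e, smul_smul, inv_mul_cancel₀ hc0, one_smul]
  have ha0 : Z a ∈ Slit v := by simpa using hs 0 (by simp)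
  obtain ⟨F, hF, hZ⟩ := h.sec h0 hv0 ha0
  let p : C(ℝ, E) := ⟨fun t => a + (projIcc 0 1 zero_le_one t : ℝ) • (a' - a), by fun_prop⟩
  have hps : ∀ t, Z (p t) ∈ Slit v := fun t => hs _ (projIcc 0 1 zero_le_one t).2
  have hcp : Continuous fun t => Z (p t) := (h.cont0 h0).comp p.continuous
  let q : C(ℝ, E) := F.comp ⟨fun t => ⟨Z (p t), hps t⟩, hcp.subtype_mk _⟩
  have p0 : p 0 = a := by simp [p]
  have p1 : p 1 = a' := by simp [p]
  have hu := (h.cov h0).existsUnique_continuousMap_lifts (⟨fun t => Z (p t), hcp⟩ : C(ℝ, E))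
    (a₀ := 0) (e₀ := a) (by simp [p0]) fun t => slit_ne (hps t)
  have hq : ∀ t, Z (p t) = Z a → q t = a := fun t ht => by
    rw [← hF]
    exact congrArg F (Subtype.ext ht)
  have hpq : p = q := hu.unique ⟨p0, rfl⟩ ⟨hq 0 (by rw [p0]), funext fun t => hZ _⟩
  rw [← p1, hpq, hq 1 (by rw [p1, e])]

/-- The inverse map. -/
theorem inv (h : Hc Z) (hd : 3 ≤ Module.finrank ℝ E) : ∃ W : E → E, Continuous W ∧ W 0 = 0 ∧
    (∀ (r : ℝ) u, W (r • u) = r • W u) ∧ (∀ a, a ≠ 0 → Z a ≠ 0 ∧ W (Z a) = a) ∧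
    ∀ u, u ≠ 0 → W u ≠ 0 ∧ Z (W u) = u := by
  obtain ⟨Y, hY, h0, e⟩ := h.fill
  let H := (Equiv.ofBijective Y ⟨hY.inj h0 hd, hY.surj h0⟩).toHomeomorphOfContinuousClosed
    (hY.cont0 h0) (hY.proper h0).isClosedMap
  have l : ∀ a, H.symm (Y a) = a := H.symm_apply_apply
  have r : ∀ u, Y (H.symm u) = u := H.apply_symm_apply
  have z : H.symm 0 = 0 := (congrArg H.symm h0.symm).trans (l 0)
  have n0 : ∀ u, u ≠ 0 → H.symm u ≠ 0 := fun u hu hz => hu (by rw [← r u, hz, h0])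
  refine ⟨H.symm, H.symm.continuous, z, fun s u => ?_,
    fun a ha => ⟨h.ne ha, by rw [← e a ha, l]⟩, fun u hu => ⟨n0 u hu, by rw [← e _ (n0 u hu), r]⟩⟩
  by_cases hs : s = 0
  · rw [hs, zero_smul, zero_smul, z]
  by_cases hu : u = 0
  · rw [hu, smul_zero, z, smul_zero]
  rw [← l (s • H.symm u), hY.hom s _ hs (n0 u hu), r]

end Hc

end Pool.Agent.MP_3ee8cb_gt.DFM
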