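import Mathlib

/-! Smooth approximation of Lipschitz maps. -/

namespace Pool.Agent.MP_3ee8cb_gt.DFM

open MeasureTheory Set Metric Filter Topology ContinuousLinearMap
open scoped Convolution NNReal

noncomputable section

variable {E F : Type} [NormedAddCommGroup E] [InnerProductSpace ℝ E] [FiniteDimensional ℝ E]
  [MeasurableSpace E] [BorelSpace E] [NormedAddCommGroup F] [NormedSpace ℝ F]
  [FiniteDimensional ℝ F]

/-- Bump functions with shrinking radii. -/
def bump (E : Type) [NormedAddCommGroup E] (n : ℕ) : ContDiffBump (0 : E) where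
  rIn := 1 / ((n : ℝ) + 1) / 2
  rOut := 1 / ((n : ℝ) + 1)
  rIn_pos := by positivity
  rIn_lt_rOut := half_lt_self (by positivity)

theorem sm_fd (u : E → F) : AEStronglyMeasurable (fderiv ℝ u) (volume : Measure E) := by
  borelize F
  borelize (E →L[ℝ] F)
  exact (measurable_fderiv ℝ u).aestronglyMeasurable

theorem conv_der (φ : ContDiffBump (0 : E)) {u : E → F} {L : ℝ≥0} (hu : LipschitzWith L u)
    (x : E) : HasFDerivAt (φ.normed volume ⋆[lsmul ℝ ℝ, volume] u)
      ((φ.normed volume ⋆[lsmul ℝ ℝ, volume] fderiv ℝ u) x) x := by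
  have hc := φ.continuous_normed (μ := volume)
  have hcu := hu.continuous
  have hmp : MeasurePreserving (fun a : E => x - a) volume volume :=
    Measure.measurePreserving_sub_left volume x
  refine (hasFDerivAt_integral_of_dominated_loc_of_lip' (𝕜 := ℝ) (μ := volume)
    (F := fun y a => φ.normed volume a • u (y - a))
    (F' := fun a => φ.normed volume a • fderiv ℝ u (x - a))
    (bound := fun a => φ.normed volume a * L) univ_mem (fun y _ => ?_) ?_ ?_ ?_ ?_ ?_).2
  · exact (by fun_prop : Continuous fun a => φ.normed volume a • u (y - a)).aestronglyMeasurable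
  · exact Continuous.integrable_of_hasCompactSupport (by fun_prop)
      (φ.hasCompactSupport_normed.smul_right (f' := fun a => u (x - a)))
  · exact hc.aestronglyMeasurable.smul ((sm_fd u).comp_measurePreserving hmp)
  · refine Eventually.of_forall fun a y _ => ?_
    rw [← smul_sub, norm_smul, Real.norm_of_nonneg (φ.nonneg_normed a), mul_assoc]
    refine mul_le_mul_of_nonneg_left ?_ (φ.nonneg_normed a)
    simpa using hu.norm_sub_le (y - a) (x - a)
  · exact φ.integrable_normed.mul_const _
  · filter_upwards [hmp.quasiMeasurePreserving.ae (hu.ae_differentiableAt (μ := volume))] with a ha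
    have h1 : HasFDerivAt (fun y : E => u (y - a)) (fderiv ℝ u (x - a)) x := by
      have h2 := ha.hasFDerivAt.comp x ((hasFDerivAt_id x).sub_const a)
      rw [ContinuousLinearMap.comp_id] at h2
      exact h2
    exact h1.const_smul (φ.normed volume a)

omit [FiniteDimensional ℝ F] in
theorem conv_le (φ : ContDiffBump (0 : E)) {g : E → F} {c : ℝ} (hg : ∀ᵐ x, ‖g x‖ ≤ c) (x : E) :
    ‖(φ.normed volume ⋆[lsmul ℝ ℝ, volume] g) x‖ ≤ c := by
  rw [convolution_lsmul]
  refine (norm_integral_le_of_norm_le (φ.integrable_normed.mul_const c) ?_).trans ?_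
  · filter_upwards [(Measure.measurePreserving_sub_left volume x).quasiMeasurePreserving.ae hg]
      with a ha
    rw [norm_smul, Real.norm_of_nonneg (φ.nonneg_normed a)]
    exact mul_le_mul_of_nonneg_left ha (φ.nonneg_normed a)
  · rw [integral_mul_const, φ.integral_normed, one_mul]

/-- Approximation of a Lipschitz map. -/
structure Mol (f : E → F) (g : ℕ → E → F) : Prop where
  c1 : ∀ k, ContDiff ℝ 1 (g k)
  lim : ∀ x, Tendsto (fun k => g k x) atTop (𝓝 (f x))
  dlim : ∀ᵐ x, Tendsto (fun k => fderiv ℝ (g k) x) atTop (𝓝 (fderiv ℝ f x))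
  bd : ∀ c : ℝ, (∀ᵐ x, ‖fderiv ℝ f x‖ ≤ c) → ∀ k x, ‖fderiv ℝ (g k) x‖ ≤ c
  odd : (∀ x, f (-x) = -f x) → ∀ k x, g k (-x) = -g k x

theorem mol {f : E → F} {L : ℝ≥0} (hf : LipschitzWith L f) : ∃ g, Mol f g := by
  have : CompleteSpace F := FiniteDimensional.complete ℝ F
  have hL : ∀ x, ‖fderiv ℝ f x‖ ≤ L := fun x => norm_fderiv_le_of_lipschitz ℝ hf
  have hv : ∀ n x, fderiv ℝ ((bump E n).normed volume ⋆[lsmul ℝ ℝ, volume] f) x =
      ((bump E n).normed volume ⋆[lsmul ℝ ℝ, volume] fderiv ℝ f) x :=
    fun n x => (conv_der (bump E n) hf x).fderiv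
  have hloc : LocallyIntegrable (fderiv ℝ f) volume := by
    refine (locallyIntegrable_const (L : ℝ)).mono (sm_fd f) (Eventually.of_forall fun x => ?_)
    simpa using hL x
  have t0 : Tendsto (fun n => (bump E n).rOut) atTop (𝓝 0) :=
    tendsto_one_div_add_atTop_nhds_zero_nat
  refine ⟨fun n => (bump E n).normed volume ⋆[lsmul ℝ ℝ, volume] f, fun n => ?_, fun x => ?_, ?_,
    fun c hc n x => ?_, fun ho n x => ?_⟩
  · exact (bump E n).hasCompactSupport_normed.contDiff_convolution_left _
      (bump E n).contDiff_normed hf.continuous.locallyIntegrable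
  · exact ContDiffBump.convolution_tendsto_right_of_continuous t0 hf.continuous x
  · simp only [hv]
    exact ContDiffBump.ae_convolution_tendsto_right_of_locallyIntegrable (φ := bump E)
      (l := atTop) (K := 2) t0 (Eventually.of_forall fun n => by
        change 1 / ((n : ℝ) + 1) ≤ 2 * (1 / ((n : ℝ) + 1) / 2)
        linarith) hloc
  · rw [hv]
    exact conv_le _ hc x
  · simp only [convolution_lsmul]
    rw [← integral_neg_eq_self, ← integral_neg]
    refine integral_congr_ae (Eventually.of_forall fun a => ?_)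
    have e : -x - -a = -(x - a) := by abel
    simp only [e, ho, ContDiffBump.normed_neg, smul_neg]

/-- A bound almost everywhere on the derivative is a Lipschitz constant. -/
theorem lip_ae {f : E → F} {L : ℝ≥0} (hf : LipschitzWith L f) {c : ℝ}
    (hc : ∀ᵐ x, ‖fderiv ℝ f x‖ ≤ c) (x y : E) : ‖f y - f x‖ ≤ c * ‖y - x‖ := by
  obtain ⟨g, hg⟩ := mol hf
  refine le_of_tendsto' ((hg.lim y).sub (hg.lim x)).norm fun k => ?_
  exact convex_univ.norm_image_sub_le_of_norm_fderiv_le
    (fun z _ => (hg.c1 k).differentiable one_ne_zero z) (fun z _ => hg.bd c hc k z)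
    (mem_univ x) (mem_univ y)

omit [FiniteDimensional ℝ F] in
theorem Mol.lip {f : E → F} {g : ℕ → E → F} (hg : Mol f g) {c : ℝ}
    (hc : ∀ᵐ x, ‖fderiv ℝ f x‖ ≤ c) (k : ℕ) (x y : E) : ‖g k y - g k x‖ ≤ c * ‖y - x‖ :=
  convex_univ.norm_image_sub_le_of_norm_fderiv_le
    (fun z _ => (hg.c1 k).differentiable one_ne_zero z) (fun z _ => hg.bd c hc k z)
    (mem_univ x) (mem_univ y)

end

end Pool.Agent.MP_3ee8cb_gt.DFM
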